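import Mathlib

/-!
# Graded subalgebras of polynomial rings on which the grading group acts freely off the vertex
-/

set_option autoImplicit false

namespace Pool.Agent.Helper88.GU

universe u

/-- The subalgebra `A` of `R[X_1, .., X_n]` is graded: it contains the homogeneous components of its
elements. -/
def IsGraded {R : Type u} [CommRing R] {n : ℕ} (A : Subalgebra R (MvPolynomial (Fin n) R)) : Prop :=
  ∀ f ∈ A, ∀ i : ℕ, MvPolynomial.homogeneousComponent i f ∈ A

/-- `A` is concentrated in degrees divisible by `e`, and for every prime ideal `P` of `A` which does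
not contain all homogeneous elements of positive degree, and for every prime number `p`, there is a
homogeneous element of `A` outside `P` of degree `e * k` with `p ∤ k`. -/
def FreeAction {R : Type u} [CommRing R] {n : ℕ} (e : ℕ)
    (A : Subalgebra R (MvPolynomial (Fin n) R)) : Prop :=
  (∀ f ∈ A, ∀ i : ℕ, ¬ e ∣ i → MvPolynomial.homogeneousComponent i f = 0) ∧
  ∀ P : Ideal A, P.IsPrime →
    (∃ (i : ℕ) (a : A), 1 ≤ i ∧ (a : MvPolynomial (Fin n) R).IsHomogeneous i ∧ a ∉ P) →
    ∀ p : ℕ, p.Prime → ∃ (k : ℕ) (a : A), ¬ p ∣ k ∧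
      (a : MvPolynomial (Fin n) R).IsHomogeneous (e * k) ∧ a ∉ P

/-- The residue field of `R` is infinite, or the closed fibre `A/mA` has dimension at most
`r - 1`. -/
def FibreCond {R : Type u} [CommRing R] [IsLocalRing R] {n : ℕ} (r : ℕ)
    (A : Subalgebra R (MvPolynomial (Fin n) R)) : Prop :=
  Infinite (IsLocalRing.ResidueField R) ∨
    ringKrullDim (A ⧸ (IsLocalRing.maximalIdeal R).map (algebraMap R A)) + 1 ≤ r

end Pool.Agent.Helper88.GU
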