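import Pool.Agent.Helper91.GU.Defs
import Pool.Agent.Helper91.GU.StB
import Pool.Agent.Helper91.GU.StD
import Pool.Agent.Helper91.GU.StE
import Pool.Agent.Helper91.GU.StF

/-!
# Project GU, second hand-in (MP_b1e6de_al): graded general position, the range `d + n ≤ 2r - 1`

THEOREM.  `R` Noetherian local, `dim R ≤ d`, `d ≥ 1`, `r = s + 1 ≥ 2`, `r!` a unit, `d + n ≤ 2r - 1 = 2s + 1`, `A` a graded
subalgebra of `R[X_1..X_n]` generated by forms of one degree (more generally: by finitely many forms of degrees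
`e·k_l` with constant isotropy); residue field of `R` infinite, or `dim A/mA ≤ r - 1`.  Then every unimodular row of
length `r+1` over `A` is completable.

Every docstring is a complete proof.  `StX` is proved as `theorem hX : StX.{u}` with the listed earlier statements as
hypotheses.  All statements of `Pool.Agent.Helper91.GU` (`StB0`, `StD4`, ..) may be used when listed.
-/

set_option autoImplicit false

namespace Pool.Agent.Helper88.GU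

open Polynomial
open Pool.Agent.Helper91.GU

universe u

/-- An `ℕ`-grading of `A`, given by its coaction `Γ f = ∑ f_i X^i` (`f_i` = component of degree `i`). -/
structure Gr (A : Type u) [CommRing A] where
  Γ : A →+* A[X]
  sum : ∀ f, (Γ f).eval 1 = f
  hom : ∀ f i, Γ ((Γ f).coeff i) = C ((Γ f).coeff i) * X ^ i

/-- The difference quotient `δf = (Γ f - f)/(X - 1)`. -/
noncomputable def dl {A : Type u} [CommRing A] (G : Gr A) (f : A) : A[X] := (G.Γ f - C f) /ₘ (X - C 1)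

/-- `[e] = 1 + X + .. + X^(e-1)` -/
noncomputable def br {A : Type u} [CommRing A] (e : ℕ) : A[X] := ∑ i ∈ Finset.range e, X ^ i

/-- `A` is generated over `R` by homogeneous elements `x_l` of degrees `e_l ≥ 1`, `R` has degree `0`, and the grading
group acts freely away from the vertex (`gcd`). -/
structure SGr (R A : Type u) [CommRing R] [CommRing A] [Algebra R A] (G : Gr A) {m : ℕ}
    (x : Fin m → A) (e : Fin m → ℕ) : Prop where
  gen : Algebra.adjoin R (Set.range x) = ⊤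
  deg : ∀ l, G.Γ (x l) = C (x l) * X ^ (e l)
  pos : ∀ l, 1 ≤ e l
  r0 : ∀ a : R, G.Γ (algebraMap R A a) = C (algebraMap R A a)
  gcd : ∀ P : Ideal A, P.IsPrime → (∃ l, x l ∉ P) → ∀ p : ℕ, p.Prime → ∃ l, x l ∉ P ∧ ¬ p ∣ e l

/-- Heights in `A` relative to `s₀ ∈ R`. -/
structure Hts (R A : Type u) [CommRing R] [CommRing A] [Algebra R A] (s₀ : R) (N : ℕ) : Prop where
  lt : ∀ P : Ideal A, P.IsPrime → algebraMap R A s₀ ∉ P → P.height < (N : ℕ∞)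
  le : ∀ P : Ideal A, P.IsPrime → P.height ≤ (N : ℕ∞)
  pos : ∀ P : Ideal A, P.IsPrime → algebraMap R A s₀ ∈ P → 1 ≤ P.height

/-- Supply of constants: for finitely many primes `Q` of two `R`-algebras with `𝔨 ⊄ Q ∩ R` and polynomials `g` with a
coefficient outside `Q` there is `z ∈ 𝔨` with `g(z) ∉ Q` for all of them. -/
def Sup (R : Type u) [CommRing R] (𝔨 : Ideal R) : Prop :=
  ∀ (B₁ B₂ : Type u) [CommRing B₁] [CommRing B₂] [Algebra R B₁] [Algebra R B₂]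
    (S₁ : Set (Ideal B₁ × B₁[X])) (S₂ : Set (Ideal B₂ × B₂[X])), S₁.Finite → S₂.Finite →
    (∀ q ∈ S₁, q.1.IsPrime ∧ ¬ 𝔨 ≤ q.1.comap (algebraMap R B₁) ∧ ∃ j, q.2.coeff j ∉ q.1) →
    (∀ q ∈ S₂, q.1.IsPrime ∧ ¬ 𝔨 ≤ q.1.comap (algebraMap R B₂) ∧ ∃ j, q.2.coeff j ∉ q.1) →
    ∃ z ∈ 𝔨, (∀ q ∈ S₁, q.2.eval (algebraMap R B₁ z) ∉ q.1) ∧
      (∀ q ∈ S₂, q.2.eval (algebraMap R B₂ z) ∉ q.1)

/-- `P` contains all top coefficients of elements of `J`: `(Γ f)_N ∈ P` for `f ∈ J`, `N ≥ deg Γ f`. -/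
def Tops {A : Type u} [CommRing A] (G : Gr A) (J P : Ideal A) : Prop :=
  ∀ f ∈ J, ∀ N, (G.Γ f).natDegree ≤ N → (G.Γ f).coeff N ∈ P

/-! ## Block V: constants, cutting, the difference quotient -/

/-- VA. Infinite residue field: `Sup R ⊤`.
Proof. For one pair `(Q, g)`: the image of `g` in `(B/Q)[X]` is nonzero, of degree `≤ D`, so it has at most `D` roots in the
domain `B/Q`.  If `z, z' ∈ R` have different residues, `z - z'` is a unit of `R`, so their images in `B/Q` are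
different (`Q` is proper).  So the set of residues of `z` with `g(z) ∈ Q` has at most `D` elements (map such a residue to
the root given by a representative `z` with `g(z) ∈ Q`: injective).  A finite union of finite sets is not the whole infinite residue field;
choose `z` with residue outside.
Hypotheses: none. -/
def StVA : Prop := ∀ (R : Type u) [CommRing R] [IsLocalRing R],
  Infinite (IsLocalRing.ResidueField R) → Sup R ⊤

/-- VB. `Sup R m` for every Noetherian local ring.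
Proof. `m ⊄ Q ∩ R` for finitely many primes `Q ∩ R` of `R`: prime avoidance (`Ideal.subset_union_prime`) gives `π ∈ m`
outside all of them.  For `i < j`, `π^i - π^j = π^i (1 - π^(j-i)) ∉ Q` (`1 - π^(j-i)` is a unit of `R`): the `π^i`
(`i ≥ 1`) have pairwise different images in the domain `B/Q`, and the image of `g` there is a nonzero polynomial, so
only finitely many `i` have `g(π^i) ∈ Q`.  Choose `i` outside all these finite sets, `z = π^i`.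
Hypotheses: none. -/
def StVB : Prop := ∀ (R : Type u) [CommRing R] [IsLocalRing R], Sup R (IsLocalRing.maximalIdeal R)

/-- VC. Cutting.
Proof. `P` contains a minimal prime `Q` of `J` (`Ideal.exists_minimalPrimes_le`), `Rg Q`, `y ∉ Q`, so `Q < P` and
`height P ≥ height Q + 1` (`Ideal.height_add_one_le_of_lt_of_isPrime` or similar; if `height P = ⊤` trivial).
Hypotheses: none. -/
def StVC : Prop := ∀ (E : Type u) [CommRing E] (J : Ideal E) (y : E) (t : ℕ) (Rg : Ideal E → Prop),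
  (∀ P P' : Ideal E, P ≤ P' → Rg P' → Rg P) → (∀ Q ∈ J.minimalPrimes, Rg Q → y ∉ Q) →
  (∀ P : Ideal E, P.IsPrime → J ≤ P → Rg P → (t : ℕ∞) ≤ P.height) →
  ∀ P : Ideal E, P.IsPrime → J ≤ P → Rg P → y ∈ P → ((t + 1 : ℕ) : ℕ∞) ≤ P.height

/-- VD. Calculus of `δ`.
Proof. `Γ f - C f` vanishes at `1` (`G.sum`), so it is `(X - C 1) * δf` (`Polynomial.mul_divByMonic_eq_iff_isRoot`);
`X - C 1` is monic, hence a nonzerodivisor.  The identities follow after multiplication by `X - C 1`: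
`Γ(fg) - C(fg) = (Γf - Cf) Cg + Γf (Γg - Cg)`; `C f * X^e - C f = (X - C 1) C f [e]` (`geom_sum`).  The last one:
`δ(γ) = 0` and, for `f' = f + v(γ + ℓ)`, `δ f' = δf + δv C(γ+ℓ) + Γv δℓ`, so
`Cv δf' - C f' δv = Cv δf - Cf δv + Cv Γv δℓ`.
Hypotheses: none. -/
def StVD : Prop := ∀ (A : Type u) [CommRing A] (G : Gr A),
  (∀ f, (X - C 1) * dl G f = G.Γ f - C f) ∧ (∀ h : A[X], (X - C 1) * h = 0 → h = 0) ∧
  (∀ f g, dl G (f + g) = dl G f + dl G g) ∧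
  (∀ f g, dl G (f * g) = dl G f * C g + G.Γ f * dl G g) ∧
  (∀ f, G.Γ f = C f → dl G f = 0) ∧
  (∀ (f : A) (e : ℕ), G.Γ f = C f * X ^ e → dl G f = C f * br e) ∧
  (∀ f v γ ℓ : A, G.Γ γ = C γ →
    C v * dl G (f + v * (γ + ℓ)) - C (f + v * (γ + ℓ)) * dl G v =
      C v * dl G f - C f * dl G v + C v * G.Γ v * dl G ℓ)

/-- VE. Freeness: a prime `P` of `A[X]` not containing all `C x_l` does not contain all `C x_l * [e_l]`.
Proof. Suppose it does.  For `l` with `C x_l ∉ P`: `[e_l] ∈ P`, so `X^(e_l) - 1 = (X-1)[e_l] ∈ P`: in the domain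
`D = A[X]/P` the class `ξ` of `X` satisfies `ξ^(e_l) = 1`.  If `ξ ≠ 1` let `o > 1` be its order
(`orderOf ξ ∣ e_l`, `e_l ≥ 1`, so it is positive) and `p` a prime factor of `o`: `p ∣ e_l` for all such `l`, contradicting
`gcd` for the prime `P.comap C` of `A`.  If `ξ = 1`, `[e_l] = e_l` in `D`, so `(e_l : D) = 0` for all such `l`; the
characteristic of `D` is then a prime `p` (it is not `0` as `e_l ≥ 1`, and it is `0` or a prime), `p ∣ e_l` for all such `l`: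
contradiction again.
Hypotheses: none. -/
def StVE : Prop := ∀ (R A : Type u) [CommRing R] [CommRing A] [Algebra R A] (G : Gr A) (m : ℕ)
  (x : Fin m → A) (e : Fin m → ℕ), SGr R A G x e → ∀ P : Ideal A[X], P.IsPrime →
  (∃ l, C (x l) ∉ P) → ∃ l, C (x l) * br (e l) ∉ P

/-- VF. Heights in `A[X]`.
Proof. D3: `height P ≤ height (P ∩ A) + 1`; `algebraMap R A[X] s₀ = C (algebraMap R A s₀)`.  `lt`: `height (P ∩ A) < N`.
`pos`: `𝔭 = P ∩ A ∋ s₀` has height `≥ 1`, so it is not a minimal prime of `A`: there is a prime `𝔮 < 𝔭`; `𝔮.map C` is a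
prime of `A[X]` (`Ideal.isPrime_map_C_of_isPrime`) strictly contained in `P`.
Hypotheses: hD3. -/
def StVF : Prop := ∀ (R A : Type u) [CommRing R] [CommRing A] [IsNoetherianRing A] [Algebra R A]
  (s₀ : R) (N : ℕ), Hts R A s₀ N → Hts R A[X] s₀ (N + 1)

/-! ## Block W: first stage (leading forms) -/

/-- WA. Constants times one entry.
Proof. Choose `h_0, h_1, ..` successively in `𝔨` such that `u_l + h_l g ∉ Q` for the (finitely many,
`Ideal.finite_minimalPrimes_of_isNoetherianRing`) minimal primes `Q` of `J_l = (u_i + h_i g : i < l)` with `g ∉ Q`: `Sup`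
with the polynomials `C u_l + C g * X` (coefficient `g ∉ Q`; `𝔨 ⊄ Q ∩ R` because `g ∈ 𝔨A`), `B₁ = A`, `B₂ = A`,
`S₂ = ∅`.  VC with `Rg P := g ∉ P`: primes `P ⊇ J_l` with `g ∉ P` have height `≥ l`.  A prime containing all
`u_l + h_l g` does not contain `g` (else it contains all `u_l` and `g`).
Hypotheses: hVC. -/
def StWA : Prop := ∀ (R A : Type u) [CommRing R] [CommRing A] [IsNoetherianRing A] [Algebra R A]
  (𝔨 : Ideal R), Sup R 𝔨 → ∀ (r : ℕ) (g : A) (u : Fin r → A), g ∈ 𝔨.map (algebraMap R A) →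
  Ideal.span (insert g (Set.range u)) = ⊤ →
  ∃ h : Fin r → R, (∀ l, h l ∈ 𝔨) ∧
    ∀ P : Ideal A, P.IsPrime → (∀ l, u l + algebraMap R A (h l) * g ∈ P) → (r : ℕ∞) ≤ P.height

/-- WB. Heights of initial ideals: if all primes `P ⊇ J` have height `≥ t`, then all primes containing the top forms of
the elements of `J` have height `≥ t`.
Proof. Let `Ω = (A/J)[T;T⁻¹]` (`LaurentPolynomial`), `Θ : A[X] → Ω` the ring map `X ↦ T`,
`a ↦ ∑_l [(Γ a)_l] T^(-l)` (`[·]` = class modulo `J`), `𝒥 = ker Θ`.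
(1) `p = ∑ p_k X^k ∈ 𝒥` iff for every `j ∈ ℤ`: `∑_k (Γ p_k)_(k-j) ∈ J` (sum over `k ≥ j`).
(2) Every leading coefficient of an element `p ∈ 𝒥`, `D = natDegree p`, lies in the ideal generated by the top forms of
`J`: `p_D = ∑_l (Γ p_D)_l` (`G.sum`) and, with `j = D - l`, the element `q = ∑_{k ≤ D} (Γ p_k)_(k-j)` lies in `J`, has
`(Γ q)_l = (Γ p_D)_l` and `natDegree (Γ q) ≤ l` (by `G.hom` the term `(Γ p_k)_(k-j)` is homogeneous of degree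
`k - j ≤ D - j = l`, with equality only for `k = D`).  So `𝒥.leadingCoeff ≤ P` if `Tops G J P`.
(3) All primes `Q ⊇ 𝒥` of `A[X]` have height `≥ t`: it suffices to treat a minimal prime `Q` of `𝒥`.  `A[X]/𝒥` embeds in
`Ω`, so `Q = Θ⁻¹(𝔔)` for a prime `𝔔` of `Ω` (`Ideal.exists_comap_eq_of_mem_minimalPrimes_of_injective` for `A[X]/𝒥 → Ω`, or directly).
Factor `Θ` as `A[X] → A[T;T⁻¹] → A[T;T⁻¹] → Ω`: the first map is the localisation at the powers of `X`, the second is the ring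
AUTOMORPHISM `σ`: `T ↦ T`, `a ↦ ∑_l (Γ a)_l T^(-l)` (inverse `a ↦ ∑_l (Γ a)_l T^l`; `G.hom`, `G.sum`), the third is reduction.
Let `𝔔'` be the inverse image of `𝔔` in `A[T;T⁻¹]` (before `Ω`): `height Q = height 𝔔'` (localisation
`IsLocalization.height_comap`/`height_under`, and an automorphism), and `height 𝔔' ≥ height (𝔔' ∩ A) ≥ t` because `𝔔' ∩ A ⊇ J`:
the first inequality: for a chain of primes below `𝔔' ∩ A` extend to `A[T;T⁻¹]` (flat, going down: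
`Ideal.height_comap_le`-type lemma, `Algebra.HasGoingDown`), or: `height 𝔔'` = height of its contraction `𝔓` to `A[T]`, and
`𝔭_i.map C`, `𝔭_0 < .. < 𝔭_t ≤ 𝔓 ∩ A`, is a chain of primes contained in `𝔓`.
(4) D4 (`L := A`, `J := 𝒥`): all primes `⊇ 𝒥.leadingCoeff` have height `≥ t`.
Hypotheses: hD4. -/
def StWB : Prop := ∀ (A : Type u) [CommRing A] [IsNoetherianRing A] (G : Gr A) (J : Ideal A) (t : ℕ),
  (∀ P : Ideal A, P.IsPrime → J ≤ P → (t : ℕ∞) ≤ P.height) →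
  ∀ P : Ideal A, P.IsPrime → Tops G J P → (t : ℕ∞) ≤ P.height

/-- WC. An element of `J ∩ 𝔨A` with a good top coefficient.
Proof. For `𝔤 ∈ S`: `¬ Tops G J 𝔤`, so there are `f_𝔤 ∈ J` and `N_𝔤 ≥ natDegree (Γ f_𝔤)` with `(Γ f_𝔤)_(N_𝔤) ∉ 𝔤`.  Let
`E = ∏ e_l ≥ 1`, `M = D + 1 + ∑ N_𝔤`, `N = E M`.  `f_𝔤^E ∈ J`, `natDegree Γ(f_𝔤^E) ≤ E N_𝔤`, and its coefficient there
is `(Γ f_𝔤)_(N_𝔤)^E ∉ 𝔤` (`Polynomial.coeff_pow_of_natDegree_le`).  `y_(𝔤,l) = x_l^(E(M - N_𝔤)/e_l)` is homogeneous of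
degree `E(M - N_𝔤)`.  Let `κ_i` be finitely many elements of `𝔨` such that for every `𝔤 ∈ S` some `κ_i ∉ 𝔤` (choose one for
each `𝔤`: `𝔨 ⊄ 𝔤 ∩ R`).  Number the triples `(𝔤, l, i)` by `ν = 0, 1, ..` and put
`w(z) = ∑_ν z^ν κ_i y_(𝔤,l) f_𝔤^E ∈ J ∩ 𝔨A`; `natDegree Γ(w(z)) ≤ N`, `(Γ w(z))_N = g(z)` with
`g = ∑_ν X^ν κ_i y_(𝔤,l) (Γ f_𝔤)_(N_𝔤)^E`; for `𝔤 ∈ S` the coefficient belonging to `(𝔤, l, i)` with `x_l ∉ 𝔤`, `κ_i ∉ 𝔤` is
not in `𝔤`.  `Sup` gives `z ∈ 𝔨` with `g(z) ∉ 𝔤` for all `𝔤 ∈ S`.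
Hypotheses: none. -/
def StWC : Prop := ∀ (R A : Type u) [CommRing R] [CommRing A] [Algebra R A] (G : Gr A) (m : ℕ)
  (x : Fin m → A) (e : Fin m → ℕ), SGr R A G x e → ∀ 𝔨 : Ideal R, Sup R 𝔨 →
  ∀ (J : Ideal A) (S : Set (Ideal A)), S.Finite →
  (∀ 𝔤 ∈ S, 𝔤.IsPrime ∧ (∃ l, x l ∉ 𝔤) ∧ ¬ 𝔨 ≤ 𝔤.comap (algebraMap R A) ∧ ¬ Tops G J 𝔤) →
  ∀ D : ℕ, ∃ w ∈ J, w ∈ 𝔨.map (algebraMap R A) ∧ ∃ N, D ≤ N ∧ (G.Γ w).natDegree ≤ N ∧
    ∀ 𝔤 ∈ S, (G.Γ w).coeff N ∉ 𝔤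

/-- the invariant of the first stage after `k` steps -/
def Inv1 {R A : Type u} [CommRing R] [CommRing A] [Algebra R A] (G : Gr A) {m : ℕ} (x : Fin m → A)
    (𝔨 : Ideal R) (s₀ : R) (D E s : ℕ) (k : ℕ) (v₀ : A) (c : Fin (s + 1) → A) (N : Fin s → ℕ) : Prop :=
  v₀ ∈ 𝔨.map (algebraMap R A) ∧ (∀ j : Fin s, c j.castSucc ∈ 𝔨.map (algebraMap R A)) ∧
  c (Fin.last s) - 1 ∈ 𝔨.map (algebraMap R A) ∧
  (G.Γ v₀).natDegree ≤ D ∧ (∀ j : Fin (s + 1), k ≤ (j : ℕ) → (G.Γ (c j)).natDegree ≤ D) ∧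
  (∀ j : Fin s, (j : ℕ) < k → D + E < N j ∧ (G.Γ (c j.castSucc)).natDegree ≤ N j) ∧
  ∀ P : Ideal A, P.IsPrime → (∃ l, x l ∉ P) → ¬ 𝔨 ≤ P.comap (algebraMap R A) →
    (∀ j : Fin s, (j : ℕ) < k → (G.Γ (c j.castSucc)).coeff (N j) ∈ P) →
    (k : ℕ∞) ≤ P.height ∧ (algebraMap R A s₀ ∈ P → ((k + 1 : ℕ) : ℕ∞) ≤ P.height)

/-- WD. One step of the first stage.
Proof. Put `g = c_k` (index `k < s`, `g ∈ 𝔨A`), `u` = the `s+1` other entries (`v₀` and `c_l`, `l ≠ k`).  WA: `h ∈ 𝔨` such that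
all primes containing all `u_l + h_l g` have height `≥ s+1`.  Replace the other entries by these (`REq`: each is an
elementary operation, or one unitriangular matrix; B7).  The congruences are kept (`h_l g ∈ 𝔨A`), degrees `≤ D` stay `≤ D`, and for
`l < k` the coefficient of `Γ c_l` at `N_l > D` and the bound `natDegree ≤ N_l` do not change.  Let `J` be the ideal
generated by the other entries (after the change).  WB (`t = s+1`): primes `P` with `Tops G J P` have height `≥ s+1`.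
Let `𝔞` = ideal generated by the `(Γ c_l)_(N_l)`, `l < k`, and `S` = the set of minimal primes `𝔤` of `𝔞` or of `𝔞 + (s₀)` with
`x_l ∉ 𝔤` for some `l`, `𝔨 ⊄ 𝔤 ∩ R` and `height 𝔤 < s+1`: finite, and `¬ Tops G J 𝔤`.  WC with this `J`, `S` and `D + E + 1`:
`w ∈ J ∩ 𝔨A`, `N_k ≥ D+E+1`.  To have `natDegree (Γ c_k) ≤ N_k` automatically note `natDegree (Γ c_k) ≤ D < N_k`, so
`c'_k = c_k + w` has `(Γ c'_k)_(N_k) = (Γ w)_(N_k)`.  Replace `c_k` by `c_k + w` (`w ∈ J`: elementary, B7).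
Heights: let `P` be as in the last clause for `k+1`.  `P` contains a minimal prime `𝔤` of `𝔞`; `𝔤` satisfies the region
conditions (they pass to smaller primes), so `height 𝔤 ≥ k`.  If `height 𝔤 ≥ s+1` then `height P ≥ k+1` as `k ≤ s`.  Otherwise
`𝔤 ∈ S`, `(Γ w)_(N_k) ∈ P \ 𝔤`, so `𝔤 < P` and `height P ≥ k+1`.  If `s₀ ∈ P` take `𝔤` minimal over `𝔞 + (s₀)`:
`height 𝔤 ≥ k+1`; if `height 𝔤 ≥ s+1 ≥ k+2` (`k < s`) fine, otherwise `𝔤 ∈ S` and `height P ≥ k+2`.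
Hypotheses: hB7 hVC hWA hWB hWC (B7 of Helper91). -/
def StWD : Prop := ∀ (R A : Type u) [CommRing R] [CommRing A] [IsNoetherianRing A] [Algebra R A]
  (G : Gr A) (m : ℕ) (x : Fin m → A) (e : Fin m → ℕ), SGr R A G x e → ∀ 𝔨 : Ideal R, Sup R 𝔨 →
  ∀ (s₀ : R) (D E s k : ℕ), k < s → ∀ (v₀ : A) (c : Fin (s + 1) → A) (N : Fin s → ℕ), Um (row v₀ c) →
  Inv1 G x 𝔨 s₀ D E s k v₀ c N →
  ∃ (v₀' : A) (c' : Fin (s + 1) → A) (N' : Fin s → ℕ), REq (row v₀ c) (row v₀' c') ∧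
    Inv1 G x 𝔨 s₀ D E s (k + 1) v₀' c' N'

/-- WE. The first stage.
Proof. `D` = maximum of all `natDegree (Γ ·)` of the entries; start `k = 0` (`height ≥ 0`, and `≥ 1` if `s₀ ∈ P`
by `Hts.pos`); apply WD `s` times (`REq` is transitive and preserves `Um`, B7).
Hypotheses: hB7 hWD. -/
def StWE : Prop := ∀ (R A : Type u) [CommRing R] [CommRing A] [IsNoetherianRing A] [Algebra R A]
  (G : Gr A) (m : ℕ) (x : Fin m → A) (e : Fin m → ℕ), SGr R A G x e → ∀ 𝔨 : Ideal R, Sup R 𝔨 →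
  ∀ (s₀ : R) (Nh : ℕ), Hts R A s₀ Nh → ∀ (E s : ℕ) (v₀ : A) (c : Fin (s + 1) → A),
  Um (row v₀ c) → v₀ ∈ 𝔨.map (algebraMap R A) →
  (∀ j : Fin s, c j.castSucc ∈ 𝔨.map (algebraMap R A)) →
  c (Fin.last s) - 1 ∈ 𝔨.map (algebraMap R A) →
  ∃ (D : ℕ) (v₀' : A) (c' : Fin (s + 1) → A) (N : Fin s → ℕ),
    REq (row v₀ c) (row v₀' c') ∧ Inv1 G x 𝔨 s₀ D E s s v₀' c' N

/-! ## Block X: second stage and conclusions -/

/-- the linear element `∑ z^(l+1) x_l` -/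
noncomputable def lin {R A : Type u} [CommRing R] [CommRing A] [Algebra R A] {m : ℕ} (x : Fin m → A)
    (z : R) : A := ∑ l : Fin m, algebraMap R A (z ^ ((l : ℕ) + 1)) * x l

/-- the region in `Spec A[X]` -/
def RU {A : Type u} [CommRing A] (G : Gr A) {m : ℕ} (x : Fin m → A) (e : Fin m → ℕ) (v₀ : A)
    (P : Ideal A[X]) : Prop :=
  C v₀ ∉ P ∧ G.Γ v₀ ∉ P ∧ ∃ l, C (x l) * br (e l) ∉ P

/-- XA. One step of the second stage: choice of `z` and `γ`.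
Proof. `δ(lin x z) = ∑ z^(l+1) C x_l [e_l]` (VD; `δ(r f) = C r δf` for `r ∈ R`).  Put
`Ψ(z) = C v₀ δc - C c δv₀ + C v₀ Γv₀ δ(lin x z) = g(z)` with
`g = C(C v₀ δc - C c δv₀) + ∑_l C(C v₀ Γv₀ C x_l [e_l]) X^(l+1) ∈ A[X][X]`.  For every minimal prime `Q` of some `J ∈ 𝒥a` with
`RU Q` some coefficient of `g` is not in `Q`, and `𝔨 ⊄ Q ∩ R` because `v₀ ∈ 𝔨A`, `C v₀ ∉ Q`
(`algebraMap R A[X] = C ∘ algebraMap R A`); these `Q` are finitely many.  `Sup` gives `z ∈ 𝔨` with `Ψ(z) ∉ Q` for all of them.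
By VC: primes `P ⊇ J` with `RU P`, `Ψ(z) ∈ P` have height `≥ t+1`.  Put `f = c + v₀ lin x z`.  Now choose `γ ∈ 𝔨`
(`Sup` with `B₁ = A[X]`, `B₂ = A`) such that `C f + C γ C v₀ ∉ Q` for all minimal primes `Q` of the ideals `J + (Ψ(z))`, `J ∈ 𝒥a`, with
`RU Q` (polynomial `C(C f) + C(C v₀) X`, coefficient `C v₀ ∉ Q`), and `f + γ v₀ ∉ Q` for all minimal primes `Q` of `J ∈ 𝒥b` with
`v₀ ∉ Q` and for all `Q ∈ 𝒬` with `v₀ ∉ Q`.  `c' = c + v₀(γ + lin x z) = f + γ v₀`.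
(a) if `C c', δc' ∈ P` then `Ψ(z) = C v₀ δc' - C c' δv₀ ∈ P` (VD, last identity), so `P ⊇ J + (Ψ(z))` and VC gives `t+2`.
(b) VC.
Hypotheses: hVC hVD. -/
def StXA : Prop := ∀ (R A : Type u) [CommRing R] [CommRing A] [IsNoetherianRing A] [Algebra R A]
  (G : Gr A) (m : ℕ) (x : Fin m → A) (e : Fin m → ℕ), SGr R A G x e → ∀ 𝔨 : Ideal R, Sup R 𝔨 →
  ∀ (v₀ c : A), v₀ ∈ 𝔨.map (algebraMap R A) →
  ∀ (𝒥a : Set (Ideal A[X])) (𝒥b : Set (Ideal A)) (𝒬 : Set (Ideal A)), 𝒥a.Finite → 𝒥b.Finite →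
  𝒬.Finite → (∀ Q ∈ 𝒬, Q.IsPrime ∧ ¬ 𝔨 ≤ Q.comap (algebraMap R A)) →
  ∃ z ∈ 𝔨, ∃ γ ∈ 𝔨,
    (∀ J ∈ 𝒥a, ∀ t : ℕ, (∀ P : Ideal A[X], P.IsPrime → J ≤ P → RU G x e v₀ P →
        (t : ℕ∞) ≤ P.height) →
      ∀ P : Ideal A[X], P.IsPrime → J ≤ P → RU G x e v₀ P →
        C (c + v₀ * (algebraMap R A γ + lin x z)) ∈ P →
        dl G (c + v₀ * (algebraMap R A γ + lin x z)) ∈ P → ((t + 2 : ℕ) : ℕ∞) ≤ P.height) ∧
    (∀ J ∈ 𝒥b, ∀ Rg : Ideal A → Prop, (∀ P P' : Ideal A, P ≤ P' → Rg P' → Rg P) →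
      (∀ P : Ideal A, Rg P → v₀ ∉ P) → ∀ t : ℕ,
      (∀ P : Ideal A, P.IsPrime → J ≤ P → Rg P → (t : ℕ∞) ≤ P.height) →
      ∀ P : Ideal A, P.IsPrime → J ≤ P → Rg P →
        c + v₀ * (algebraMap R A γ + lin x z) ∈ P → ((t + 1 : ℕ) : ℕ∞) ≤ P.height) ∧
    (∀ Q ∈ 𝒬, v₀ ∉ Q → c + v₀ * (algebraMap R A γ + lin x z) ∉ Q)

/-- XB. The second stage, all entries.
Proof. Choose `(z_k, γ_k)` successively by XA with
`𝒥a = {J, J + (C s₀)}`, `J` = ideal of the `C c'_j, δc'_j`, `j < k`;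
`𝒥b = {J₁, J₁ + (s₀), J₂, J₂ + (s₀)}`, `J₁ = (F_j all j; c'_j, j < k)`, `J₂ = (c'_j, j < k)`; invariants for `k`: the three
statements below with `s+1` replaced by `k` (`2k`, `s+k`, `k`).  Start `k = 0`: `Hts R A[X] s₀ _` (VF) gives `1 ≤ height` for
`C s₀ ∈ P`; the assumption on `F`; `Hts R A s₀ _`.  Regions for (b): `Rg P = (v₀ ∉ P ∧ ∃ l, x_l ∉ P)` for `J₁`, `Rg P = (v₀ ∉ P)` for
`J₂`.
Hypotheses: hVF hXA. -/
def StXB : Prop := ∀ (R A : Type u) [CommRing R] [CommRing A] [IsNoetherianRing A] [Algebra R A]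
  (G : Gr A) (m : ℕ) (x : Fin m → A) (e : Fin m → ℕ), SGr R A G x e → ∀ 𝔨 : Ideal R, Sup R 𝔨 →
  ∀ (s₀ : R) (Nh : ℕ), Hts R A s₀ Nh → ∀ (s : ℕ) (v₀ : A) (c : Fin (s + 1) → A) (F : Fin s → A),
  v₀ ∈ 𝔨.map (algebraMap R A) →
  (∀ P : Ideal A, P.IsPrime → v₀ ∉ P → (∃ l, x l ∉ P) → (∀ j, F j ∈ P) →
    (s : ℕ∞) ≤ P.height ∧ (algebraMap R A s₀ ∈ P → ((s + 1 : ℕ) : ℕ∞) ≤ P.height)) →
  ∀ (𝒬 : Set (Ideal A)), 𝒬.Finite → (∀ Q ∈ 𝒬, Q.IsPrime ∧ ¬ 𝔨 ≤ Q.comap (algebraMap R A)) →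
  ∃ z γ : Fin (s + 1) → R, (∀ j, z j ∈ 𝔨 ∧ γ j ∈ 𝔨) ∧
    ∃ c' : Fin (s + 1) → A, (∀ j, c' j = c j + v₀ * (algebraMap R A (γ j) + lin x (z j))) ∧
    (∀ P : Ideal A[X], P.IsPrime → RU G x e v₀ P → (∀ j, C (c' j) ∈ P ∧ dl G (c' j) ∈ P) →
      ((2 * (s + 1) : ℕ) : ℕ∞) ≤ P.height ∧
      (C (algebraMap R A s₀) ∈ P → ((2 * (s + 1) + 1 : ℕ) : ℕ∞) ≤ P.height)) ∧
    (∀ P : Ideal A, P.IsPrime → v₀ ∉ P → (∃ l, x l ∉ P) → (∀ j, F j ∈ P) → (∀ j, c' j ∈ P) →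
      ((s + (s + 1) : ℕ) : ℕ∞) ≤ P.height ∧
      (algebraMap R A s₀ ∈ P → ((s + (s + 1) + 1 : ℕ) : ℕ∞) ≤ P.height)) ∧
    (∀ P : Ideal A, P.IsPrime → v₀ ∉ P → (∀ j, c' j ∈ P) →
      ((s + 1 : ℕ) : ℕ∞) ≤ P.height ∧
      (algebraMap R A s₀ ∈ P → ((s + 1 + 1 : ℕ) : ℕ∞) ≤ P.height)) ∧
    (∀ Q ∈ 𝒬, v₀ ∉ Q → c' 0 ∉ Q)

/-- XD. The vertex.  `π₀ f = (Γ f)_0` is a ring endomorphism of `A` with values in the image of `R`; `f - π₀ f` lies in the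
ideal generated by the `x_l`; there is a prime `Q` such that `f ∉ Q` iff `π₀ f` is the image of a unit of `R`.
Proof. `π₀ = constantCoeff ∘ Γ`; `π₀ x_l = 0` (`e_l ≥ 1`), `π₀ r = r`; induction over `Algebra.adjoin R (range x) = ⊤`.
`Q = {f : π₀ f ∈ image of m}`: if `π₀ f = ρ·1` with `ρ ∈ m` and also `= ρ'·1` with `ρ'` a unit then
`(ρ' - ρ)·1 = 0` with `ρ' - ρ` a unit, so `A = 0`.  `Q` is closed under addition and multiplication by `A` (`π₀ a` is the image of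
some element of `R`), proper (`A ≠ 0`) and prime (a product of units of `R` is a unit).
Hypotheses: none. -/
def StXD : Prop := ∀ (R A : Type u) [CommRing R] [IsLocalRing R] [CommRing A] [Nontrivial A]
  [Algebra R A] (G : Gr A) (m : ℕ) (x : Fin m → A) (e : Fin m → ℕ), SGr R A G x e →
  (∀ f : A, ∃ ρ : R, (G.Γ f).coeff 0 = algebraMap R A ρ) ∧
  (∀ f : A, f - (G.Γ f).coeff 0 ∈ Ideal.span (Set.range x)) ∧
  ∃ Q : Ideal A, Q.IsPrime ∧ ∀ f : A, f ∉ Q ↔ ∃ ρ : R, IsUnit ρ ∧ (G.Γ f).coeff 0 = algebraMap R A ρ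

/-- XE. Infinity.  `(F) + (c') = A`.
Proof. Otherwise let `P` be a maximal ideal containing both.  `v₀ ∉ P` (`Um`).  If all `x_l ∈ P`: `f - 1 ∈ (x) ⊂ P` (XD) and
`f ∈ P`, contradiction.  So the height assumption applies: `2s + 1 ≤ height P`, and `2s + 2 ≤ height P` if `s₀ ∈ P`; but
`height P < Nh ≤ 2s+1` if `s₀ ∉ P` and `height P ≤ Nh ≤ 2s+1` always.
Hypotheses: hXD. -/
def StXE : Prop := ∀ (R A : Type u) [CommRing R] [IsLocalRing R] [CommRing A] [Nontrivial A]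
  [Algebra R A] (G : Gr A) (m : ℕ) (x : Fin m → A) (e : Fin m → ℕ), SGr R A G x e →
  ∀ (s₀ : R) (Nh s : ℕ), Hts R A s₀ Nh → Nh ≤ 2 * s + 1 → ∀ (v₀ : A) (c' : Fin (s + 1) → A)
  (F : Fin s → A), Um (row v₀ c') → (∃ f ∈ idl c', (G.Γ f).coeff 0 = 1) →
  (∀ P : Ideal A, P.IsPrime → v₀ ∉ P → (∃ l, x l ∉ P) → (∀ j, F j ∈ P) → (∀ j, c' j ∈ P) →
      ((s + (s + 1) : ℕ) : ℕ∞) ≤ P.height ∧
      (algebraMap R A s₀ ∈ P → ((s + (s + 1) + 1 : ℕ) : ℕ∞) ≤ P.height)) →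
  Ideal.span (Set.range F) ⊔ idl c' = ⊤

/-- XF. No double points.
Proof. It suffices that no prime `P` of `A[X]` with `X ∉ P` contains all `C c'_j`, `δc'_j` (then `X` is in the radical).  Let `P`
be such a prime.  Some `C x_l ∉ P` (else `C(f - 1) ∈ P` and `C f ∈ P`, XD), so some `C x_l [e_l] ∉ P` (VE).  `C v₀ ∉ P`: `Um`.
`Γ c'_j = (X-1) δc'_j + C c'_j ∈ P` (VD), so `Γ v₀ ∉ P` (apply `Γ` to the unimodularity relation).  So `RU P` holds: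
`2s + 2 ≤ height P`, and `2s + 3 ≤ height P` if `C s₀ ∈ P`.  VF: `height P < Nh + 1 ≤ 2s+2` if `C s₀ ∉ P`, and
`height P ≤ Nh + 1 ≤ 2s + 2` always.  Contradiction.
Hypotheses: hVD hVE hVF hXD. -/
def StXF : Prop := ∀ (R A : Type u) [CommRing R] [IsLocalRing R] [CommRing A] [IsNoetherianRing A]
  [Nontrivial A] [Algebra R A] (G : Gr A) (m : ℕ) (x : Fin m → A) (e : Fin m → ℕ),
  SGr R A G x e → ∀ (s₀ : R) (Nh s : ℕ), Hts R A s₀ Nh → Nh ≤ 2 * s + 1 →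
  ∀ (v₀ : A) (c' : Fin (s + 1) → A), Um (row v₀ c') → (∃ f ∈ idl c', (G.Γ f).coeff 0 = 1) →
  (∀ P : Ideal A[X], P.IsPrime → RU G x e v₀ P → (∀ j, C (c' j) ∈ P ∧ dl G (c' j) ∈ P) →
      ((2 * (s + 1) : ℕ) : ℕ∞) ≤ P.height ∧
      (C (algebraMap R A s₀) ∈ P → ((2 * (s + 1) + 1 : ℕ) : ℕ∞) ≤ P.height)) →
  ∃ M : ℕ, (X : A[X]) ^ M ∈
    Ideal.span (Set.range (fun j => C (c' j)) ∪ Set.range (fun j => dl G (c' j)))

/-- XG. Unimodular rows over `E/I`.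
Proof. Let `b_j ∈ E` be lifts.  Claim: there are `h_0, .., h_(s-1) ∈ E` such that for `i ≤ s` every prime `P ⊇ I` containing
`b_j + h_j b_s` (`j < i`) with `b_s ∉ P` has height `≥ s+1+i`, and `≥ s+2+i` if `σ ∈ P`.  Choose `h_i`: let `S` be the finite set of
minimal primes `Q` of `I + (b_j + h_j b_s : j < i)` and of `I + (b_j + h_j b_s : j < i) + (σ)` with `b_s ∉ Q`.  We need
`b_i + h b_s ∉ Q` for all `Q ∈ S`: it is enough for the maximal elements of `S` (if `Q ⊂ Q'` and the element is not in `Q'` it is not in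
`Q`), which are pairwise incomparable: let `S₁` be those containing `b_i`, `S₂` the others, `h ∈ ⋂_(S₂) Q` outside all `Q ∈ S₁`
(prime avoidance: `⋂_(S₂) Q ⊄ Q'` for `Q' ∈ S₁`).  Then VC (regions `b_s ∉ P`).  For `i = s`: `2s+1 ≤ height P`, resp. `2s+2` if
`σ ∈ P`: impossible since `height P < N ≤ 2s+1` if `σ ∉ P`, and `height P ≤ N ≤ 2s+1`.  So a prime containing `I` and all
`b_j + h_j b_s`, `j < s`, contains `b_s`, hence all `b_j`: impossible.  So these `s` elements are unimodular modulo `I`; add a combination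
of them to the last entry to make it `1`, clear the others, and move the `1` to position `0` (`s ≥ 1`).
Hypotheses: hVC. -/
def StXG : Prop := ∀ (E : Type u) [CommRing E] [IsNoetherianRing E] (I : Ideal E) (σ : E) (N s : ℕ),
  1 ≤ s → N ≤ 2 * s + 1 → (∀ P : Ideal E, P.IsPrime → σ ∉ P → P.height < (N : ℕ∞)) →
  (∀ P : Ideal E, P.IsPrime → P.height ≤ (N : ℕ∞)) →
  (∀ P : Ideal E, P.IsPrime → I ≤ P → ((s + 1 : ℕ) : ℕ∞) ≤ P.height ∧
    (σ ∈ P → ((s + 1 + 1 : ℕ) : ℕ∞) ≤ P.height)) →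
  ∀ b : Fin (s + 1) → E ⧸ I, Um b → EEq b (Pi.single 0 1)

/-- XH. Homogeneous elements `≡ 1`.  Let `I = (c')`, `I_T = (Γ c'_j) ⊂ A[X]`.  For large `k` there is `a_k ∈ A`, homogeneous of
degree `k`, with `1 - a_k ∈ I` (so `1 - a_k X^k ∈ I_T`).
Proof. Apply D8 to `L := A`, `I := I_T`.  Note `Γ f ∈ I_T` for `f ∈ I`.
(1) `Γ f` for the given `f` has constant coefficient `1`.
(2) Let `D` be an `A`-algebra, `t, t' ∈ D` points of `V(I_T)`.  By (1) `t, t'` are units (`aeval t (Γ f) = 0` and `(Γ f)_0 = 1`).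
Let `y : A → D` be the ring map `a ↦ aeval t (Γ a)` and `τ = t' t⁻¹`.  Then `aeval t' (Γ a) = eval₂ y τ (Γ a)` (`G.hom`:
`y((Γ a)_l) = (Γ a)_l t^l`).  So `y(c'_j) = 0` and `eval₂ y τ (Γ c'_j) = 0`, hence `(τ - 1) eval₂ y τ (δ c'_j) = 0` (VD).  Apply
`eval₂ y τ` to `X^M (X - 1) ∈ (X-1)·(C c'_j, δc'_j)`: `τ^M (τ - 1) = 0`, so `τ = 1`.
(3) `1 = a + b`, `a = ∑ q_j F_j`, `b ∈ I`, `F_j = (Γ c'_j)_(N_j)` homogeneous: `1 = ∑ Γ(q_j) F_j X^(N_j) + Γ b` shows that the `F_j`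
generate the unit ideal of `A[X]/I_T`.  `S` = set of the nonzero `F_j`; if `F_j ≠ 0` then `natDegree (Γ c'_j) = N_j ≥ 1` and `F_j` is the
leading coefficient of `Γ c'_j ∈ I_T`.
So `1 - c X^k ∈ I_T` for `k ≥ k₀` and some `c = c(k) ∈ A`.  Put `a_k = (Γ c)_k`.  Claim `1 - a_k ∈ I`: let
`Ξ : A[X] → (A/I)[T;T⁻¹]`, `X ↦ T`, `a ↦ ∑_l [(Γ a)_l] T^(-l)`; `Ξ(Γ f) = [f]` (`G.hom`, `G.sum`), so `Ξ` kills `I_T`, and
`0 = Ξ(1 - c X^k) = 1 - ∑_l [(Γ c)_l] T^(k-l)`; look at `T^0`.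
Hypotheses: hD8 hVD. -/
def StXH : Prop := ∀ (A : Type u) [CommRing A] [IsNoetherianRing A] (G : Gr A) (s : ℕ)
  (c' : Fin (s + 1) → A) (N : Fin s → ℕ), (∃ f ∈ idl c', (G.Γ f).coeff 0 = 1) →
  (∃ M : ℕ, (X : A[X]) ^ M ∈
    Ideal.span (Set.range (fun j => C (c' j)) ∪ Set.range (fun j => dl G (c' j)))) →
  (∀ j : Fin s, 1 ≤ N j ∧ (G.Γ (c' j.castSucc)).natDegree ≤ N j) →
  Ideal.span (Set.range fun j : Fin s => (G.Γ (c' j.castSucc)).coeff (N j)) ⊔ idl c' = ⊤ →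
  ∃ (k₀ : ℕ) (a : ℕ → A), ∀ k, k₀ ≤ k → G.Γ (a k) = C (a k) * X ^ k ∧ 1 - a k ∈ idl c'

/-- XI. The first entry, graded version of E1.
Proof. `1 - a = ∑ b_j c'_j` in `A`, `Γ a = a X^k`.  The derivation `ϑ f = (Γ f)'(1)` of `A` (`derivative`, `eval 1`; `ϑ(fg) = ϑf g + f ϑg`)
gives `-k a = ∑ ϑ(b_j) c'_j + ∑ b_j ϑ(c'_j)`; modulo `I = (c')`: `-k = ∑ b_j ϑ(c'_j)`, so the row `b` is unimodular modulo `I`.
`b̄ ε = e_0` with `ε ∈ Elem` over `A/I`; then `b̄ᵀ = (ε⁻¹)ᵀ e_0ᵀ`, and `(ε⁻¹)ᵀ ∈ Elem` lifts to `ε' ∈ Elem` over `A` (B0):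
`ε'_(j0) - b_j ∈ I`.  `(c' ε')_0 = ∑ c'_j ε'_(j0) ≡ ∑ c'_j b_j = 1 - a` modulo `I²`.  Apply `Γ`: `e₁ = ε'.map Γ` (B0),
`(Γc' e₁)_0 - (1 - a X^k) ∈ Γ(I²) ⊂ I_T²`.
Hypotheses: hB0. -/
def StXI : Prop := ∀ (A : Type u) [CommRing A] (G : Gr A) (s : ℕ) (c' : Fin (s + 1) → A) (k : ℕ)
  (a : A), IsUnit (k : A) → G.Γ a = C a * X ^ k → 1 - a ∈ idl c' →
  (∀ b : Fin (s + 1) → A ⧸ idl c', Um b → EEq b (Pi.single 0 1)) →
  ∃ e₁ ∈ Elem (Fin (s + 1)) A[X],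
    Matrix.vecMul (fun j => G.Γ (c' j)) e₁ 0 - (1 - C a * X ^ k) ∈
      idl (fun j => G.Γ (c' j)) ^ 2

/-- XJ. E12 of Helper91 without the dimension hypothesis.
Proof. As E12: the elementary `e₁` is given; `w_j = (c e₁)_j ∈ I`, `j ≥ 1`: E2 gives `w_j ≡ l_j γ + b_j X^N`; subtract `l_j` times the
`0`-th entry from the `j`-th.
Hypotheses: hE2 (hB0). -/
def StXJ : Prop := ∀ (L : Type u) [CommRing L] [IsNoetherianRing L] (s : ℕ)
  (c : Fin (s + 1) → L[X]) (k₀ : ℕ) (a : ℕ → L), YK (idl c) k₀ a → ∀ k, k₀ ≤ k → 1 ≤ k →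
  IsUnit (k : L) → ∀ e₁ ∈ Elem (Fin (s + 1)) L[X],
  Matrix.vecMul c e₁ 0 - (1 - C (a k) * X ^ k) ∈ idl c ^ 2 →
  ∃ N₀ : ℕ, ∀ N, N₀ ≤ N → ∃ e ∈ Elem (Fin (s + 1)) L[X], ∃ b : Fin s → L, (∀ j, C (b j) ∈ idl c) ∧
    ∀ j, Matrix.vecMul c e j -
      (Fin.cons (1 - C (a k) * X ^ k) (fun j => C (b j) * X ^ N) : Fin (s + 1) → L[X]) j ∈
        idl c ^ 2

/-- XK. F of Helper91 (S-CORE) without the dimension hypothesis.
Proof. As F (`Helper60/GU/M_F.lean`), with XJ instead of E12: the exponent `k = ((s+1)!)^t ≥ k₀, 1` is a unit.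
Hypotheses: hB0 hB7 hE0 hXJ hE3 hF2 hF3c hF4 hF5. -/
def StXK : Prop := ∀ (L : Type u) [CommRing L] [IsNoetherianRing L] (s : ℕ), 1 ≤ s →
  IsUnit ((s + 1).factorial : L) → ∀ (v₀ : L[X]) (c : Fin (s + 1) → L[X]), Um (row v₀ c) →
  ∀ (k₀ : ℕ) (a : ℕ → L), YK (idl c) k₀ a →
  (∀ k, k₀ ≤ k → 1 ≤ k → IsUnit (k : L) → ∃ e₁ ∈ Elem (Fin (s + 1)) L[X],
    Matrix.vecMul c e₁ 0 - (1 - C (a k) * X ^ k) ∈ idl c ^ 2) →
  REq (row v₀ c) (row 1 0)

/-- XL. The end: rows in general position are completable.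
Proof. XE, XF, XG (`E = A`, `I = (c')`, `σ = s₀`; a prime containing all `c'_j` does not contain `v₀`), XH: `a_k`; `YK (Γ c'_j) k₀ a`
(`1 - a_k X^k = Γ(1 - a_k)`), XI, XK with `L := A` and the row `(Γ v₀; Γ c'_j)` (unimodular: image under `Γ`): it is `REq` to
`(1;0)` over `A[X]`; apply `eval 1` (B7, `G.sum`).  If `A` is trivial everything is trivial.
Hypotheses: hB7 hXE hXF hXG hXH hXI hXK. -/
def StXL : Prop := ∀ (R A : Type u) [CommRing R] [IsLocalRing R] [CommRing A] [IsNoetherianRing A]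
  [Nontrivial A] [Algebra R A] (G : Gr A) (m : ℕ) (x : Fin m → A) (e : Fin m → ℕ),
  SGr R A G x e → ∀ (s₀ : R) (Nh s : ℕ), 1 ≤ s → Hts R A s₀ Nh → Nh ≤ 2 * s + 1 →
  IsUnit ((s + 1).factorial : A) → ∀ (v₀ : A) (c' : Fin (s + 1) → A) (N : Fin s → ℕ),
  Um (row v₀ c') → (∃ f ∈ idl c', (G.Γ f).coeff 0 = 1) →
  (∀ j : Fin s, 1 ≤ N j ∧ (G.Γ (c' j.castSucc)).natDegree ≤ N j) →
  (∀ P : Ideal A[X], P.IsPrime → RU G x e v₀ P → (∀ j, C (c' j) ∈ P ∧ dl G (c' j) ∈ P) →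
      ((2 * (s + 1) : ℕ) : ℕ∞) ≤ P.height ∧
      (C (algebraMap R A s₀) ∈ P → ((2 * (s + 1) + 1 : ℕ) : ℕ∞) ≤ P.height)) →
  (∀ P : Ideal A, P.IsPrime → v₀ ∉ P → (∃ l, x l ∉ P) →
      (∀ j : Fin s, (G.Γ (c' j.castSucc)).coeff (N j) ∈ P) → (∀ j, c' j ∈ P) →
      ((s + (s + 1) : ℕ) : ℕ∞) ≤ P.height ∧
      (algebraMap R A s₀ ∈ P → ((s + (s + 1) + 1 : ℕ) : ℕ∞) ≤ P.height)) →
  (∀ P : Ideal A, P.IsPrime → v₀ ∉ P → (∀ j, c' j ∈ P) →
      ((s + 1 : ℕ) : ℕ∞) ≤ P.height ∧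
      (algebraMap R A s₀ ∈ P → ((s + 1 + 1 : ℕ) : ℕ∞) ≤ P.height)) →
  REq (row v₀ c') (row 1 0)

/-- XM. ABSTRACT THEOREM.  `𝔨 = R` (infinite residue field) or `𝔨 = m`; the row is `(0; 0, .., 0, 1)` modulo `𝔨A`.
Proof. `E` = an upper bound of all `e_l`.  WE: `(v₀; c)` with `Inv1 .. D E s s v₀ c N`.  `F_j = (Γ c_j)_(N_j)`.  XB with
`𝒬 = {Q}` (`Q` from XD) if `𝔨 = ⊤`, `𝒬 = ∅` if `𝔨 = m`: `c'`.  `(v₀;c) ~ (v₀;c')` (B7).
`natDegree Γ(v₀(γ + lin)) ≤ D + E < N_j` (`natDegree (Γ v₀) ≤ D`, `natDegree (Γ (lin x z)) ≤ E`), so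
`(Γ c'_j)_(N_j) = F_j` and `natDegree (Γ c'_j) ≤ N_j`.  The assumption of XB on `F` is the last clause of `Inv1`
(`𝔨 ⊄ P ∩ R` because `v₀ ∈ 𝔨A \ P`).
`f ∈ (c')` with `(Γ f)_0 = 1`: case `𝔨 = m`: `c'_s - 1 ∈ mA`, so `(Γ c'_s)_0 - 1 ∈` image of `m` (XD: `π₀(mA) ⊂` image of `m`), i.e.
`(Γ c'_s)_0` is the image of a unit `ρ`; `f = ρ⁻¹ c'_s`.  Case `𝔨 = ⊤`: if `v₀ ∉ Q` then `c'_0 ∉ Q`; if `v₀ ∈ Q`, some `c_j ∉ Q` (`Um`) and
`c'_j - c_j ∈ (v₀)`; so some `c'_j ∉ Q`, `(Γ c'_j)_0` is the image of a unit `ρ`, `f = ρ⁻¹ c'_j`.  XL.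
Hypotheses: hB7 hWE hXB hXD hXL. -/
def StXM : Prop := ∀ (R A : Type u) [CommRing R] [IsLocalRing R] [CommRing A] [IsNoetherianRing A]
  [Nontrivial A] [Algebra R A] (G : Gr A) (m : ℕ) (x : Fin m → A) (e : Fin m → ℕ),
  SGr R A G x e → ∀ 𝔨 : Ideal R, (𝔨 = ⊤ ∨ 𝔨 = IsLocalRing.maximalIdeal R) → Sup R 𝔨 →
  ∀ (s₀ : R) (Nh s : ℕ), 1 ≤ s → Hts R A s₀ Nh → Nh ≤ 2 * s + 1 →
  IsUnit ((s + 1).factorial : A) → ∀ (v : A) (d : Fin (s + 1) → A), Um (row v d) →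
  v ∈ 𝔨.map (algebraMap R A) → (∀ j : Fin s, d j.castSucc ∈ 𝔨.map (algebraMap R A)) →
  d (Fin.last s) - 1 ∈ 𝔨.map (algebraMap R A) → REq (row v d) (row 1 0)

/-- XN. Normalisation modulo `𝔟` (`𝔟 = mA`): if `dim A/𝔟 ≤ s`, a unimodular row of length `s+2` over `A` is equivalent to one that is
`(0; 0, .., 0, 1)` modulo `𝔟`.
Proof. EB for `B = A/𝔟` and rows of length `(s+1)+1` (`dim B + 2 ≤ s + 2`): reindex `Unit ⊕ Fin (s+1) ≅ Fin (s+2)`; the row modulo `𝔟`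
is elementarily equivalent to `(1,0,..,0)`, hence (swap two coordinates up to sign, elementary) to the row with `1` in the last
position; lift the elementary matrix to `A` (B0).  (If `𝔟 = ⊤` nothing to do.)
Hypotheses: hB0 hB7 hEB. -/
def StXN : Prop := ∀ (A : Type u) [CommRing A] [IsNoetherianRing A] (𝔟 : Ideal A) (s : ℕ),
  ringKrullDim (A ⧸ 𝔟) ≤ s → ∀ (v : A) (d : Fin (s + 1) → A), Um (row v d) →
  ∃ (v' : A) (d' : Fin (s + 1) → A), REq (row v d) (row v' d') ∧ v' ∈ 𝔟 ∧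
    (∀ j : Fin s, d' j.castSucc ∈ 𝔟) ∧ d' (Fin.last s) - 1 ∈ 𝔟

/-! ## Block Y: subalgebras of `R[X_1..X_n]` -/

/-- YA. The grading.  `x_l` homogeneous of degree `e k_l`, `e ≥ 1`, `A = R[x_1..x_m]`: there is `G : Gr A` with
`Γ x_l = x_l X^(k_l)` and `Γ r = r`.
Proof. Every element of `A` has homogeneous components only in degrees divisible by `e`, and they lie in `A`
(`Algebra.adjoin_induction`; a product of homogeneous elements is homogeneous).  `Γ f = ∑_i f_(e i) X^i` (finite sum, `i ≤ totalDegree f`).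
It is a ring map: `(f g)_(e i) = ∑_(a + b = e i) f_a g_b` and `f_a = 0` unless `e ∣ a`.  `sum`: `f = ∑ f_i`
(`MvPolynomial.sum_homogeneousComponent`); `hom`: a component is homogeneous.  (One can use H2 of Helper91 for the total
degree and then contract `X^e ↦ X`, e.g. `Polynomial.contract e`.)
Hypotheses: none. -/
def StYA : Prop := ∀ (R : Type u) [CommRing R] (n m e : ℕ) (x : Fin m → MvPolynomial (Fin n) R)
  (k : Fin m → ℕ), 1 ≤ e → (∀ l, (x l).IsHomogeneous (e * k l)) →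
  ∃ G : Gr (Algebra.adjoin R (Set.range x)),
    (∀ l, G.Γ ⟨x l, Algebra.subset_adjoin ⟨l, rfl⟩⟩ =
      C ⟨x l, Algebra.subset_adjoin ⟨l, rfl⟩⟩ * X ^ (k l)) ∧
    ∀ a : R, G.Γ (algebraMap R _ a) = C (algebraMap R _ a)

/-- YB. The dimension inequality for primes.
Proof. Let `P` be a prime of `A`, `p = P ∩ R`.  Localise at `R \ p`: `A_p = A ⊗ R_p` is (isomorphic to) a finitely generated subalgebra of
`R_p[X_1..X_n]`, `height P ≤ dim A_p ≤ dim R_p + n` (H1 of Helper91).  Or directly: by the argument of H1a-H1d with heights instead of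
dimensions.  (helper78 proves this.)
Hypotheses: hH1. -/
def StYB : Prop := ∀ (R : Type u) [CommRing R] [IsNoetherianRing R] (n : ℕ)
  (A : Subalgebra R (MvPolynomial (Fin n) R)), A.FG → ∀ (P : Ideal A) [P.IsPrime],
  P.height ≤ (P.comap (algebraMap R A)).height + n

/-- YC. Heights relative to `s₀`.
Proof. If `dim R = 0` take `s₀ = 1`: `height P ≤ 0 + n < d + n` (YB), `pos` is vacuous.  Otherwise `m` is not a minimal prime of `R`;
prime avoidance (finitely many minimal primes) gives `s₀ ∈ m` outside all minimal primes of `R`.  `le`: YB,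
`height (P ∩ R) ≤ dim R ≤ d`.  `lt`: `s₀ ∉ P` so `P ∩ R ≠ m`, `height (P ∩ R) + 1 ≤ height m ≤ d`.  `pos`: suppose `s₀ ∈ P` and
`height P = 0`, i.e. `P` is a minimal prime of `A`.  `A → R[X_1..X_n]` is injective, so `P = A ∩ Q` for a prime `Q`
(`Ideal.exists_comap_eq_of_mem_minimalPrimes_of_injective`), and `Q` may be replaced by a minimal prime `Q₀ ≤ Q` of `R[X_1..X_n]`
(`A ∩ Q₀ ≤ P` is prime, `P` minimal).  `q = Q₀ ∩ R` contains a minimal prime `q₀` of `R`, `q₀ R[X_1..X_n]` is prime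
(`MvPolynomial.isPrime_map_C_iff_isPrime`) and `≤ Q₀`, so equal; hence `Q₀ ∩ R = q₀ ∌ s₀`, but `s₀ ∈ P`.
Hypotheses: hYB. -/
def StYC : Prop := ∀ (R : Type u) [CommRing R] [IsLocalRing R] [IsNoetherianRing R] (d n : ℕ),
  1 ≤ d → ringKrullDim R ≤ d → ∀ (A : Subalgebra R (MvPolynomial (Fin n) R)), A.FG →
  ∃ s₀ : R, Hts R A s₀ (d + n)

/-- the constant isotropy condition: for every prime `P` of `A` not containing all `x_l` the degrees `k_l` with `x_l ∉ P` have no common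
prime factor -/
def Iso {R : Type u} [CommRing R] {n m : ℕ} (x : Fin m → MvPolynomial (Fin n) R) (k : Fin m → ℕ) :
    Prop :=
  ∀ P : Ideal (Algebra.adjoin R (Set.range x)), P.IsPrime →
    (∃ l, (⟨x l, Algebra.subset_adjoin ⟨l, rfl⟩⟩ : Algebra.adjoin R (Set.range x)) ∉ P) →
    ∀ p : ℕ, p.Prime → ∃ l, (⟨x l, Algebra.subset_adjoin ⟨l, rfl⟩⟩ :
      Algebra.adjoin R (Set.range x)) ∉ P ∧ ¬ p ∣ k l

/-- YD. The theorem for finitely generated algebras, in `REq` form.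
Proof. `G` from YA; `SGr` with `x'_l = ⟨x_l, _⟩`; `gen`: `Algebra.adjoin` inside the subalgebra is `⊤`
(`Algebra.adjoin_range_..`/`Subalgebra` lemma: `Algebra.adjoin_eq_top_..`, e.g. by mapping with the injective `Subalgebra.val`).
YC: `Hts R A s₀ (d + n)`, `d + n ≤ 2s + 1`.  Noetherian: Hilbert.  `A` is nontrivial (it contains the local ring `R`).  If the
residue field is infinite: VA, XM with `𝔨 = ⊤` (the congruences are empty: `⊤.map = ⊤`).  Otherwise VB, XN with `𝔟 = mA`, XM with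
`𝔨 = m`.
Hypotheses: hB7 hVA hVB hXM hXN hYA hYC. -/
def StYD : Prop := ∀ (R : Type u) [CommRing R] [IsLocalRing R] [IsNoetherianRing R] (d n s : ℕ),
  1 ≤ s → 1 ≤ d → ringKrullDim R ≤ d → d + n ≤ 2 * s + 1 → IsUnit ((s + 1).factorial : R) →
  ∀ (m e : ℕ) (x : Fin m → MvPolynomial (Fin n) R) (k : Fin m → ℕ), 1 ≤ e → (∀ l, 1 ≤ k l) →
  (∀ l, (x l).IsHomogeneous (e * k l)) → Iso x k →
  (Infinite (IsLocalRing.ResidueField R) ∨
    ringKrullDim (Algebra.adjoin R (Set.range x) ⧸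
      (IsLocalRing.maximalIdeal R).map (algebraMap R (Algebra.adjoin R (Set.range x)))) ≤ s) →
  ∀ (v : Algebra.adjoin R (Set.range x)) (w : Fin (s + 1) → Algebra.adjoin R (Set.range x)),
  Um (row v w) → REq (row v w) (row 1 0)

/-- YE. From `REq` to first rows of matrices of determinant `1`, and enlargement of the algebra.  `A' ≤ A` subalgebras; a row over `A` whose
entries, and those of a dual row, lie in `A'`, and `REq`-completability over `A'`.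
Proof. As in the last step `GU` of Helper91 (`StGU`): `v' g = (1;0)` over `A'`, so over `A`; `v` is the first row of `g⁻¹`; multiply
the second row of `g⁻¹` by `det g`.  Reindex `Fin (s+2) ≅ Unit ⊕ Fin (s+1)`.
Hypotheses: hB7. -/
def StYE : Prop := ∀ (A : Type u) [CommRing A] (s : ℕ) (v : Fin (s + 2) → A),
  REq (row (v 0) (fun j : Fin (s + 1) => v j.succ)) (row 1 0) →
  ∃ M : Matrix (Fin (s + 2)) (Fin (s + 2)) A, M.det = 1 ∧ ∀ j, M 0 j = v j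

/-- YF. FINAL, finitely generated algebras with constant isotropy.
Hypotheses: hYD hYE. -/
def StYF : Prop := ∀ (R : Type u) [CommRing R] [IsLocalRing R] [IsNoetherianRing R] (d n r : ℕ),
  2 ≤ r → 1 ≤ d → ringKrullDim R ≤ d → d + n + 1 ≤ 2 * r → IsUnit (r.factorial : R) →
  ∀ (m e : ℕ) (x : Fin m → MvPolynomial (Fin n) R) (k : Fin m → ℕ), 1 ≤ e → (∀ l, 1 ≤ k l) →
  (∀ l, (x l).IsHomogeneous (e * k l)) → Iso x k →
  (Infinite (IsLocalRing.ResidueField R) ∨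
    ringKrullDim (Algebra.adjoin R (Set.range x) ⧸
      (IsLocalRing.maximalIdeal R).map (algebraMap R (Algebra.adjoin R (Set.range x)))) + 1 ≤ r) →
  ∀ v w : Fin (r + 1) → Algebra.adjoin R (Set.range x), ∑ j, v j * w j = 1 →
  ∃ M : Matrix (Fin (r + 1)) (Fin (r + 1)) (Algebra.adjoin R (Set.range x)),
    M.det = 1 ∧ ∀ j, M 0 j = v j

/-- YG. FINAL, algebras generated by any set `S` of forms of one degree `e ≥ 1` (infinite residue field).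
Proof. The entries of `v, w` lie in `R[x_1..x_m]` for finitely many `x_l ∈ S` (`Algebra.adjoin_eq_exists_finset`-type lemma:
`Algebra.mem_adjoin_iff..`, `Subalgebra.FG`; e.g. by `Algebra.adjoin_induction` or `Algebra.exists_finset_..`).  YD (with
`k_l = 1`: `Iso` holds trivially, `1` has no prime factor) over `A' = R[x_1..x_m]`; map to `A` (B7), YE.
Hypotheses: hB7 hYD hYE. -/
def StYG : Prop := ∀ (R : Type u) [CommRing R] [IsLocalRing R] [IsNoetherianRing R] (d n r : ℕ),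
  2 ≤ r → 1 ≤ d → ringKrullDim R ≤ d → d + n + 1 ≤ 2 * r → IsUnit (r.factorial : R) →
  Infinite (IsLocalRing.ResidueField R) →
  ∀ (e : ℕ), 1 ≤ e → ∀ S : Set (MvPolynomial (Fin n) R), (∀ f ∈ S, f.IsHomogeneous e) →
  ∀ v w : Fin (r + 1) → Algebra.adjoin R S, ∑ j, v j * w j = 1 →
  ∃ M : Matrix (Fin (r + 1)) (Fin (r + 1)) (Algebra.adjoin R S),
    M.det = 1 ∧ ∀ j, M 0 j = v j

end Pool.Agent.Helper88.GU
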